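import Pool.Agent.H68.CF.Final

/-!
Continuity of all intrinsic volumes under non-collapsing Gromov-Hausdorff convergence, for tori
with metrics conformal to a flat metric (conformal factors bounded above, sectional curvature
bounded below, no upper curvature bound).
-/

open H68.CF GromovHausdorff Filter Topology

namespace Pool.Agent.Results.MP_637338_gt.ConformallyFlatTori

/-- Let `1 ≤ k`, `2 k < n` and let `X` be a compact metric space with more than one point. There is
a number `v` such that for all `κ`, all `c > 0`, every lattice (given by a basis `b`) and every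
sequence of smooth periodic functions `w_l ≥ c` for which the metrics `w_l⁻² |dx|²` have sectional
curvature `≥ κ` and the Riemannian tori converge to `X` in the Gromov-Hausdorff sense, the
intrinsic volumes `V_{n-2k}` of the tori converge to `v`. -/
theorem result {n k : ℕ} (hk1 : 1 ≤ k) (hk : 2 * k < n) (X : GHSpace)
    (hnt : Nontrivial X.Rep) :
    ∃ v : ℝ, ∀ (κ c : ℝ) (b : Module.Basis (Fin n) ℝ (E n)) (g : ℕ → ConfFactor b), 0 < c →
      (∀ l x, c ≤ (g l).w x) → (∀ l, SecGe (conf (g l).w) κ) →
      Tendsto (fun l => toGHSpace (Torus (g l))) atTop (𝓝 X) →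
      Tendsto (fun l => intrinsicVolume k b (conf (g l).w)) atTop (𝓝 v) :=
  intrinsicVolume_limit hk1 hk X hnt

end Pool.Agent.Results.MP_637338_gt.ConformallyFlatTori
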