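import Pool.Agent.H68.LV.Res

/-!
The intrinsic volume V_(n-4) is determined by the Gromov-Hausdorff limit, with a rate, for
Riemannian manifolds with sectional curvature bounded below and charts of uniform size in which
the metric tensor is uniformly Lipschitz (no upper curvature bound).
-/

open Pool.H68.LV Manifold Bundle
open scoped ContDiff

namespace Pool.Agent.Results.MP_637338_gt.LipschitzCharts

/-- Let n >= 5 and let X be a nonempty compact metric space. There is a number v such that for all
real κ and all positive r, Λ there are C and η > 0 such that every closed Riemannian n-manifold M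
with sectional curvature at least -κ, with uniformly Lipschitz charts of radius r (constant Λ)
around every point, and with Gromov-Hausdorff distance less than η from X, satisfies
|V_(n-4)(M) - v| <= C d_GH(M, X)^(1/4). -/
theorem result (n : ℕ) (hn : 5 ≤ n) (X : Type) [MetricSpace X] [CompactSpace X] [Nonempty X] :
    ∃ v : ℝ, ∀ κ r Λ : ℝ, 0 < r → 0 < Λ → ∃ C : ℝ, ∃ η : ℝ, 0 < η ∧ ∀ (M : Type)
      [MetricSpace M] [CompactSpace M] [Nonempty M] [MeasurableSpace M] [BorelSpace M]
      [ChartedSpace (E n) M] [IsManifold 𝓘(ℝ, E n) ∞ M]
      [RiemannianBundle (fun x : M => TangentSpace 𝓘(ℝ, E n) x)],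
      SmoothMetric (E n) M → RiemDist (E n) M → SecGeM n M κ → LipCh n M r Λ →
      GromovHausdorff.ghDist M X < η →
      |V4 n M - v| ≤ C * GromovHausdorff.ghDist M X ^ (1 / 4 : ℝ) :=
  res n hn X

end Pool.Agent.Results.MP_637338_gt.LipschitzCharts
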